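import Pool.Agent.K7.H50.TD.Rosser

set_option autoImplicit false

/-!
# MP_106fe3_lc: finite intervals in the definability order are trivial

For all definitions of truth `α ◁ β`: if the interval `[α, β]` contains only finitely many
classes, then `β ◁ α`.

Proof. For an arithmetical sentence `θ` let `γ_θ = α ∧ (β' ∨ θ)`, where `β'` is a disjoint copy
of `β`. Then `γ_θ` is a definition of truth in the interval, and if `γ_θ'` defines `γ_θ`, then
`θ' ∧ ¬ θ` lies in `D = {θ : α ∧ θ defines β}` (interpret the symbols of `β'` arbitrarily). `D` is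
an ideal in the algebra of arithmetical sentences (glue two translations along `θ`), and it is
recursively enumerable. If `α` does not define `β`, then `D` is proper; if moreover the interval
is finite, then `D` has an atom `θ₀`, that is, for every `ψ` exactly one of `θ₀ ∧ ψ`, `θ₀ ∧ ¬ ψ`
is in `D`. Then `{n : θ₀ ∧ ¬ φ_n ∈ D}` is decidable, which is impossible when
`φ_n` are Rosser sentences for two recursively inseparable sets.

The recursive enumerability of `D` is proved semantically: non-definability is reduced to the
satisfiability of a computable set of propositional clauses describing Henkin structures.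
-/

namespace Pool.Agent.Results.MP_106fe3_lc.FiniteIntervals

open Pool.Agent.K7.H50.TD

/-- If `α ◁ β` are definitions of truth and the interval `[α, β]` is finite up to equivalence,
then `β ◁ α`. -/
theorem result (g : Form → ℕ) (α β : Thy) (hα : InDEF g α) (_hβ : InDEF g β)
    (hαβ : Defines β α)
    (hfin : ∃ l : List Thy, ∀ γ : Thy, InDEF g γ → Defines γ α → Defines β γ →
      ∃ δ ∈ l, Defines δ γ ∧ Defines γ δ) :
    Defines α β := by
  by_contra h0
  obtain ⟨θ, hθ, hD, hat⟩ := exists_atom g α β hα hαβ hfin h0
  obtain ⟨r⟩ := exists_rp _ (Kc_re 0)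
  obtain ⟨r'⟩ := exists_rp _ (Kc_re 1)
  have hEA := hα.1
  have c1 : REPred fun n => Dn α β (.and θ (.neg (rosS r r' n))) := by
    refine re_defs β.ax β.closed (fun n => .and α.ax (.and θ (.neg (rosS r r' n)))) ?_ ?_
    · intro n
      simp [Form.fv, α.closed, hθ.fv, rosS_fv]
    · exact p_and (Primrec.const _) (p_and (Primrec.const _) (p_neg (p_rosS r r')))
  have c2 : REPred fun n => Dn α β (.and θ (rosS r r' n)) := by
    refine re_defs β.ax β.closed (fun n => .and α.ax (.and θ (rosS r r' n))) ?_ ?_
    · intro n
      simp [Form.fv, α.closed, hθ.fv, rosS_fv]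
    · exact p_and (Primrec.const _) (p_and (Primrec.const _) (p_rosS r r'))
  have hcompl : ∀ n, Dn α β (.and θ (rosS r r' n)) ↔
      ¬ Dn α β (.and θ (.neg (rosS r r' n))) := by
    intro n
    constructor
    · intro h1 h2
      apply hD
      refine Defs.cases (rosS_fv r r' n) (fun M hM hs => ?_) (fun M hM hs => ?_) h1 h2
      · rw [holds_and] at hM
        rw [holds_and, holds_and]
        exact ⟨hM.1, hM.2, hs⟩
      · rw [holds_and] at hM
        rw [holds_and, holds_and, holds_neg _ _ (rosS_fv r r' n)]
        exact ⟨hM.1, hM.2, hs⟩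
    · intro h1
      rcases hat _ (rosS_AS r r' n) with h | h
      · exact h
      · exact absurd h h1
  have hcomp : ComputablePred fun n => Dn α β (.and θ (.neg (rosS r r' n))) :=
    ComputablePred.computable_iff_re_compl_re'.2 ⟨c1, c2.of_eq hcompl⟩
  refine insep _ hcomp (fun n hn => ?_) (fun n hn => ?_)
  · refine ⟨idF, fun M hM => ?_⟩
    rw [holds_and, holds_and, holds_neg _ _ (rosS_fv r r' n)] at hM
    exact absurd (rosS_true r r' n hn (fun h => Kc_disj n ⟨hn, h⟩) M (hEA M hM.1)) hM.2.2
  · rw [← hcompl]
    refine ⟨idF, fun M hM => ?_⟩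
    rw [holds_and, holds_and] at hM
    exact absurd hM.2.2 (rosS_false r r' n (fun h => Kc_disj n ⟨h, hn⟩) hn M (hEA M hM.1))

end Pool.Agent.Results.MP_106fe3_lc.FiniteIntervals
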